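import Pool.Agent.N208.BT.Stm

set_option autoImplicit false
set_option linter.unusedSectionVars false

/-!
# BT/FP: the common fixed point of a bounded linear group in a compact convex set
-/

noncomputable section

namespace Pool.Agent.N415.BTFP

open Filter Topology

section

variable {E : Type} [NormedAddCommGroup E] [InnerProductSpace ℝ E] (Q : Set (E →ₗ[ℝ] E))

/-- the largest norm square on the orbit -/
def F (x : E) : ℝ := ⨆ g : Q, ‖(g : E →ₗ[ℝ] E) x‖ ^ 2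

variable {Q} {D : ℝ} (hD : 1 ≤ D) (hb : ∀ g ∈ Q, ∀ x, ‖g x‖ ≤ D * ‖x‖) (hne : Q.Nonempty)

include hD hb in
lemma bdd (x : E) : BddAbove (Set.range fun g : Q => ‖(g : E →ₗ[ℝ] E) x‖ ^ 2) := by
  refine ⟨(D * ‖x‖) ^ 2, ?_⟩
  rintro _ ⟨g, rfl⟩
  exact pow_le_pow_left₀ (norm_nonneg _) (hb g g.2 x) 2

include hD hb in
lemma le_F {g : E →ₗ[ℝ] E} (hg : g ∈ Q) (x : E) : ‖g x‖ ^ 2 ≤ F Q x :=
  le_ciSup (bdd hD hb x) (⟨g, hg⟩ : Q)

include hne in
lemma F_le {x : E} {M : ℝ} (h : ∀ g ∈ Q, ‖g x‖ ^ 2 ≤ M) : F Q x ≤ M := by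
  have : Nonempty Q := hne.to_subtype
  exact ciSup_le fun g => h g g.2

include hD hb hne in
lemma F_sub (x y : E) : F Q x ≤ F Q y + D ^ 2 * ‖x - y‖ * (‖x‖ + ‖y‖) := by
  refine F_le hne fun g hg => ?_
  have h1 := le_F hD hb hg y
  have h2 : ‖g x‖ - ‖g y‖ ≤ D * ‖x - y‖ := by
    refine (norm_sub_norm_le _ _).trans ?_
    rw [← map_sub]
    exact hb g hg _
  have h3 : ‖g x‖ + ‖g y‖ ≤ D * (‖x‖ + ‖y‖) := by
    have := hb g hg x
    have := hb g hg y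
    linarith
  have h4 : 0 ≤ ‖g x‖ + ‖g y‖ := by positivity
  have h5 : 0 ≤ D * ‖x - y‖ := by positivity
  have h6 : (‖g x‖ - ‖g y‖) * (‖g x‖ + ‖g y‖) ≤ (D * ‖x - y‖) * (D * (‖x‖ + ‖y‖)) :=
    (mul_le_mul_of_nonneg_right h2 h4).trans (mul_le_mul_of_nonneg_left h3 h5)
  nlinarith [h1, h6]

include hD hb hne in
lemma F_cont : Continuous (F Q) := by
  rw [continuous_iff_continuousAt]
  intro x
  unfold ContinuousAt
  rw [tendsto_iff_dist_tendsto_zero]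
  have h1 : Tendsto (fun y : E => D ^ 2 * ‖y - x‖ * (‖y‖ + ‖x‖)) (𝓝 x) (𝓝 0) := by
    have h2 : Continuous fun y : E => D ^ 2 * ‖y - x‖ * (‖y‖ + ‖x‖) := by fun_prop
    have h3 := h2.tendsto x
    simpa using h3
  refine squeeze_zero (fun y => dist_nonneg) (fun y => ?_) h1
  rw [Real.dist_eq, abs_le]
  have h4 := F_sub hD hb hne x y
  have h5 := F_sub hD hb hne y x
  rw [norm_sub_rev x y, add_comm ‖x‖] at h4
  constructor <;> linarith

end

theorem main : Pool.Agent.N208.BT.S_FP := by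
  intro E _ _ _ Q K C hcomp hinv hbd hK hconv hKne hstab
  rcases Q.eq_empty_or_nonempty with hQ | hne
  · obtain ⟨z, hz⟩ := hKne
    refine ⟨z, hz, fun g hg => ?_⟩
    rw [hQ] at hg
    exact absurd hg (Set.notMem_empty g)
  obtain ⟨D, hDdef⟩ : ∃ D : ℝ, D = max C 1 := ⟨_, rfl⟩
  have hD : 1 ≤ D := by rw [hDdef]; exact le_max_right _ _
  have hD0 : 0 < D := by linarith
  have hb : ∀ g ∈ Q, ∀ x, ‖g x‖ ≤ D * ‖x‖ := by
    intro g hg x
    refine (hbd g hg x).trans (mul_le_mul_of_nonneg_right ?_ (norm_nonneg x))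
    rw [hDdef]
    exact le_max_left _ _
  obtain ⟨x, hx, hmin⟩ := hK.exists_isMinOn hKne (F_cont hD hb hne).continuousOn
  refine ⟨x, hx, fun g hg => ?_⟩
  have hy : g x ∈ K := hstab g hg x hx
  have hm : (1 / 2 : ℝ) • x + (1 / 2 : ℝ) • g x ∈ K :=
    hconv hx hy (by norm_num) (by norm_num) (by norm_num)
  have h1 : F Q x ≤ F Q ((1 / 2 : ℝ) • x + (1 / 2 : ℝ) • g x) := hmin hm
  have h2 : F Q ((1 / 2 : ℝ) • x + (1 / 2 : ℝ) • g x) ≤ F Q x - ‖x - g x‖ ^ 2 / (4 * D ^ 2) := by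
    refine F_le hne fun h hh => ?_
    have e1 : h ((1 / 2 : ℝ) • x + (1 / 2 : ℝ) • g x) = (1 / 2 : ℝ) • (h x + h (g x)) := by
      rw [map_add, map_smul, map_smul, smul_add]
    have e2 : ‖h ((1 / 2 : ℝ) • x + (1 / 2 : ℝ) • g x)‖ = 1 / 2 * ‖h x + h (g x)‖ := by
      rw [e1, norm_smul]
      norm_num
    have e3 := parallelogram_law_with_norm ℝ (h x) (h (g x))
    have e4 : ‖h x‖ ^ 2 ≤ F Q x := le_F hD hb hh x
    have e5 : ‖h (g x)‖ ^ 2 ≤ F Q x := le_F hD hb (hcomp h hh g hg) x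
    obtain ⟨h', hh', e6⟩ := hinv h hh
    have e7 : ‖x - g x‖ ≤ D * ‖h x - h (g x)‖ := by
      have := hb h' hh' (h (x - g x))
      rw [e6, map_sub] at this
      exact this
    have e8 : ‖x - g x‖ ^ 2 / (4 * D ^ 2) ≤ ‖h x - h (g x)‖ ^ 2 / 4 := by
      rw [div_le_div_iff₀ (by positivity) (by norm_num)]
      have := pow_le_pow_left₀ (norm_nonneg _) e7 2
      nlinarith [this]
    rw [e2]
    nlinarith [e3, e4, e5, e8]
  have h3 : ‖x - g x‖ ^ 2 / (4 * D ^ 2) ≤ 0 := by linarith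
  have h4 : ‖x - g x‖ ^ 2 ≤ 0 := by
    by_contra hcon
    push Not at hcon
    have : 0 < ‖x - g x‖ ^ 2 / (4 * D ^ 2) := by positivity
    linarith
  have h5 : ‖x - g x‖ = 0 := by
    have := sq_nonneg ‖x - g x‖
    exact pow_eq_zero_iff (two_ne_zero) |>.1 (le_antisymm h4 this)
  exact (sub_eq_zero.1 (norm_eq_zero.1 h5)).symm

end Pool.Agent.N415.BTFP
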