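import Pool.Agent.N906.QP.Stm
import Pool.Agent.N691.RS_COSET

/-!
# QP/DSC (for helper906, MP_4d5ce1_nt): elements of a coset of an ideal in a product of discs

helper415; the boxes are those of `Pool/Agent/N691/RS_COSET.lean`.
-/

set_option autoImplicit false

namespace Pool.Agent.N415.QP
open NumberField NumberField.InfinitePlace NumberField.mixedEmbedding MeasureTheory
open Pool.Agent.N691.RS (exists_small approx zp zp_inj)
open scoped nonZeroDivisors ENNReal NNReal

/-- the centre of the discs -/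
noncomputable def cen (K : Type) [Field K] [NumberField K] (R : ℝ) : mixedSpace K :=
  (fun _ => 3 * R / 4, fun _ => ((3 * R / 4 : ℝ) : ℂ))

theorem zp_cen (K : Type) [Field K] [NumberField K] (m : ℕ) (R δ : ℝ) (hR : 0 < R) (hδ : 0 < δ)
    (hm : 3 * δ * m ≤ R / 8)
    (j : ({w : InfinitePlace K // IsReal w} → Fin m) ×
      ({w : InfinitePlace K // IsComplex w} → Fin m × Fin m)) (w : InfinitePlace K) :
    normAtPlace w (zp K m R δ j - cen K R) ≤ 11 * R / 48 := by
  have hb : ∀ i : Fin m, 0 ≤ 3 * δ * ((i : ℕ) : ℝ) ∧ 3 * δ * ((i : ℕ) : ℝ) ≤ R / 8 := by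
    intro i
    refine ⟨by positivity, le_trans ?_ hm⟩
    have : ((i : ℕ) : ℝ) ≤ m := by exact_mod_cast i.2.le
    gcongr
  by_cases hw : IsReal w
  · rw [normAtPlace_apply_of_isReal hw]
    have h := hb (j.1 ⟨w, hw⟩)
    have e : (zp K m R δ j - cen K R).1 ⟨w, hw⟩ =
        5 * R / 8 + 3 * δ * (((j.1 ⟨w, hw⟩ : Fin m) : ℕ) : ℝ) - 3 * R / 4 := rfl
    rw [e, Real.norm_eq_abs, abs_le]
    constructor <;> linarith [h.1, h.2]
  · have hw' : IsComplex w := not_isReal_iff_isComplex.mp hw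
    rw [normAtPlace_apply_of_isComplex hw']
    have h := hb (j.2 ⟨w, hw'⟩).1
    have h' := hb (j.2 ⟨w, hw'⟩).2
    have e : (zp K m R δ j - cen K R).2 ⟨w, hw'⟩ =
        (⟨5 * R / 8 + 3 * δ * (((j.2 ⟨w, hw'⟩).1 : ℕ) : ℝ),
          3 * δ * (((j.2 ⟨w, hw'⟩).2 : ℕ) : ℝ)⟩ : ℂ) - ((3 * R / 4 : ℝ) : ℂ) := rfl
    rw [e]
    set p := 3 * δ * (((j.2 ⟨w, hw'⟩).1 : ℕ) : ℝ) with hp
    set q := 3 * δ * (((j.2 ⟨w, hw'⟩).2 : ℕ) : ℝ) with hq
    apply le_of_sq_le_sq _ (by positivity)
    rw [← Complex.normSq_eq_norm_sq, Complex.normSq_apply]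
    simp only [Complex.sub_re, Complex.sub_im, Complex.ofReal_re, Complex.ofReal_im]
    have e1 : 0 ≤ p * (R / 4 - p) := mul_nonneg h.1 (by linarith [h.2])
    have e2 : q * q ≤ (R / 8) * (R / 8) := mul_le_mul h'.2 h'.2 h'.1 (by linarith)
    nlinarith

theorem nap_eq (K : Type) [Field K] [NumberField K] (R : ℝ) (a : K) (w : InfinitePlace K) :
    ‖w.embedding a - ((3 * R / 4 : ℝ) : ℂ)‖ = normAtPlace w (mixedEmbedding K a - cen K R) := by
  by_cases hw : IsReal w
  · rw [normAtPlace_apply_of_isReal hw]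
    have e : (mixedEmbedding K a - cen K R).1 ⟨w, hw⟩ = embedding_of_isReal hw a - 3 * R / 4 := rfl
    rw [e, ← embedding_of_isReal_apply hw, ← Complex.ofReal_sub, Complex.norm_real]
  · have hw' : IsComplex w := not_isReal_iff_isComplex.mp hw
    rw [normAtPlace_apply_of_isComplex hw']
    rfl

theorem dsc (K : Type) [Field K] [NumberField K] : Pool.Agent.N906.KG.S_DSC K := by
  classical
  obtain ⟨C1, hC1, h1⟩ := exists_small K
  obtain ⟨B, hB, h2⟩ := approx K
  have hd : Module.finrank ℚ K ≠ 0 := Module.finrank_pos.ne'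
  have hC2 : 0 < C1 * B := by positivity
  refine ⟨(1 / (48 * (C1 * B))) ^ Module.finrank ℚ K, by positivity,
    fun R 𝔞 t hR h𝔞 hN => ?_⟩
  have hN0 : 0 < (Ideal.absNorm 𝔞 : ℝ) := by
    have : Ideal.absNorm 𝔞 ≠ 0 := by
      intro h
      exact h𝔞 (Ideal.absNorm_eq_zero_iff.1 h)
    positivity
  have hR0 : 0 < R := by linarith
  set ν : ℝ := (Ideal.absNorm 𝔞 : ℝ) ^ ((1 : ℝ) / (Module.finrank ℚ K : ℕ)) with hν
  have hν0 : 0 < ν := by positivity
  have hνd : ν ^ (Module.finrank ℚ K) = (Ideal.absNorm 𝔞 : ℝ) := by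
    rw [hν, one_div]
    exact Real.rpow_inv_natCast_pow hN0.le hd
  obtain ⟨α, hα, hα0, hαw⟩ := h1 𝔞 h𝔞 ν hν0 hνd
  set δ : ℝ := C1 * B * ν with hδ
  have hδ0 : 0 < δ := by positivity
  have hδR : 48 * δ ≤ R := by
    have h3 : ν ^ (Module.finrank ℚ K) ≤ (1 / (48 * (C1 * B)) * R) ^ (Module.finrank ℚ K) := by
      rw [hνd, mul_pow]; exact hN
    have h4 : ν ≤ 1 / (48 * (C1 * B)) * R :=
      (pow_le_pow_iff_left₀ hν0.le (by positivity) hd).1 h3
    have h5 : 48 * δ ≤ 48 * (C1 * B * (1 / (48 * (C1 * B)) * R)) := by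
      rw [hδ]; gcongr
    have h6 : 48 * (C1 * B * (1 / (48 * (C1 * B)) * R)) = R := by
      field_simp
    linarith
  set m : ℕ := ⌊R / (24 * δ)⌋₊ with hm
  have hm1 : (m : ℝ) ≤ R / (24 * δ) := Nat.floor_le (by positivity)
  have hm2 : R / (24 * δ) < m + 1 := Nat.lt_floor_add_one _
  have hm3 : R / (48 * δ) ≤ m := by
    have h3 : 1 ≤ R / (48 * δ) := by
      rw [le_div_iff₀ (by positivity)]; linarith
    have h4 : R / (24 * δ) = 2 * (R / (48 * δ)) := by field_simp; ring
    linarith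
  have hm4 : 3 * δ * m ≤ R / 8 := by
    have h3 : 3 * δ * m ≤ 3 * δ * (R / (24 * δ)) := by gcongr
    have h4 : 3 * δ * (R / (24 * δ)) = R / 8 := by field_simp; ring
    linarith
  have h3 := fun j => h2 α t (zp K m R δ j) hα0
  choose β hβ using h3
  have hβ' : ∀ j, ∀ w : InfinitePlace K,
      normAtPlace w (zp K m R δ j - mixedEmbedding K ((t + α * β j : 𝓞 K) : K)) ≤ δ := by
    intro j w
    refine (hβ j w).trans ?_
    calc w (α : K) * B ≤ (C1 * ν) * B := by
          have := hαw w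
          gcongr
      _ = δ := by rw [hδ]; ring
  have hinj : Function.Injective fun j => t + α * β j := by
    intro j j' hjj
    apply zp_inj K m R δ hδ0
    intro w
    have e1 := hβ' j w
    have e2 := hβ' j' w
    have e3 : (t + α * β j : 𝓞 K) = t + α * β j' := hjj
    rw [e3] at e1
    have e4 : zp K m R δ j - zp K m R δ j' =
        (zp K m R δ j - mixedEmbedding K ((t + α * β j' : 𝓞 K) : K)) +
        -(zp K m R δ j' - mixedEmbedding K ((t + α * β j' : 𝓞 K) : K)) := by abel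
    rw [e4]
    refine (normAtPlace_add_le w _ _).trans ?_
    rw [normAtPlace_neg]
    linarith
  refine ⟨Finset.univ.image fun j => t + α * β j, ?_, ?_⟩
  · intro a ha
    rw [Finset.mem_image] at ha
    obtain ⟨j, -, rfl⟩ := ha
    refine ⟨?_, fun w => ?_⟩
    · rw [add_sub_cancel_left]
      exact Ideal.mul_mem_right _ _ hα
    · have e1 := hβ' j w
      have e2 := zp_cen K m R δ hR0 hδ0 hm4 j w
      rw [nap_eq]
      have e5 := normAtPlace_add_le w (zp K m R δ j - cen K R)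
        (-(zp K m R δ j - mixedEmbedding K ((t + α * β j : 𝓞 K) : K)))
      rw [normAtPlace_neg] at e5
      have e6 : zp K m R δ j - cen K R +
          -(zp K m R δ j - mixedEmbedding K ((t + α * β j : 𝓞 K) : K)) =
          mixedEmbedding K ((t + α * β j : 𝓞 K) : K) - cen K R := by abel
      rw [e6] at e5
      linarith
  · rw [Finset.card_image_of_injective _ hinj, Finset.card_univ, Fintype.card_prod,
      Fintype.card_fun, Fintype.card_fun, Fintype.card_prod, Fintype.card_fin]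
    have e1 : m ^ Fintype.card {w : InfinitePlace K // IsReal w} *
        (m * m) ^ Fintype.card {w : InfinitePlace K // IsComplex w} =
        m ^ Module.finrank ℚ K := by
      rw [← card_add_two_mul_card_eq_rank K, pow_add, pow_mul, pow_two]
    rw [e1, ← hνd, ← div_pow, ← mul_pow, Nat.cast_pow]
    have e2 : 1 / (48 * (C1 * B)) * (R / ν) = R / (48 * δ) := by
      rw [hδ]; field_simp
    rw [e2]
    gcongr

end Pool.Agent.N415.QP
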