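import Pool.Agent.N604.MW.Stm12
import Pool.Agent.N570.KV_Part
import Pool.Agent.N954.KV_Key

/-!
# Project AK, part KALL: the moment of `GS` over all frequencies
-/

set_option autoImplicit false

namespace Pool.Agent.N415.AKAll

open Finset MeasureTheory ENNReal Pool.Agent.N604.MW
open Pool.Agent.N570.KVPart (BB BB_meas shift WW_nonneg WW_meas SS VV_le sum_pow_le')
open Pool.Agent.N954.KV (qq_prod_int GS_nonneg GS_le)

/-- the integral of `VV ^ s` over all frequencies -/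
theorem partAll (n k s : ℕ) (hn : 1 ≤ n) (hs1 : 1 ≤ s) :
    ∃ C : ℝ, 0 < C ∧ ∀ (X : ℕ) (T : ℝ),
      ∫⁻ γ : Fin n → ℝ, ENNReal.ofReal ((∏ j, qq (γ j)) * VV n k X T γ ^ s) ≤
      ENNReal.ofReal C * ∑ g ∈ Finset.Icc 1 n, ∫⁻ B : Fin g → ℝ, ENNReal.ofReal (WW g k X T B ^ s) := by
  classical
  set K : ℕ := (SS n n).card with hK
  set C : ℝ := (K : ℝ) ^ s * (5 * Real.pi) ^ n * ((n : ℝ) ^ n) + 1 with hC
  refine ⟨C, by positivity, fun X T => ?_⟩
  -- the pointwise bound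
  have hpt : ∀ γ : Fin n → ℝ, ENNReal.ofReal ((∏ j, qq (γ j)) * VV n k X T γ ^ s) ≤
      ∑ p ∈ SS n n, ENNReal.ofReal ((K : ℝ) ^ s) * ((∏ j, ENNReal.ofReal (qq (γ j))) *
        (fun B => ENNReal.ofReal (WW p.1 k X T B ^ s)) (BB p.2 γ)) := by
    intro γ
    have h1 : VV n k X T γ ≤ ∑ p ∈ SS n n, WW p.1 k X T (BB p.2 γ) := by
      refine VV_le γ hn ?_
      intro g f z hf _ _ _
      have := Fintype.card_le_of_surjective f hf
      rwa [Fintype.card_fin, Fintype.card_fin] at this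
    have h2 : VV n k X T γ ^ s ≤ (K : ℝ) ^ s * ∑ p ∈ SS n n, WW p.1 k X T (BB p.2 γ) ^ s :=
      (pow_le_pow_left₀ (Pool.Agent.N570.KVPart.VV_nonneg γ) h1 s).trans
        (sum_pow_le' (SS n n) (fun p => WW p.1 k X T (BB p.2 γ)) (fun p => WW_nonneg _) s hs1)
    have hq0 : 0 ≤ ∏ j, qq (γ j) :=
      Finset.prod_nonneg fun j _ => Pool.Agent.N570.KVPart.qq_nonneg _
    calc ENNReal.ofReal ((∏ j, qq (γ j)) * VV n k X T γ ^ s) ≤
        ENNReal.ofReal (∑ p ∈ SS n n, (K : ℝ) ^ s * ((∏ j, qq (γ j)) *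
          WW p.1 k X T (BB p.2 γ) ^ s)) := by
          apply ENNReal.ofReal_le_ofReal
          refine (mul_le_mul_of_nonneg_left h2 hq0).trans (le_of_eq ?_)
          rw [← Finset.mul_sum, ← Finset.mul_sum]
          ring
      _ = _ := by
          rw [ENNReal.ofReal_sum_of_nonneg]
          · refine Finset.sum_congr rfl fun p _ => ?_
            rw [ENNReal.ofReal_mul (by positivity), ENNReal.ofReal_mul hq0,
              ENNReal.ofReal_prod_of_nonneg fun j _ => Pool.Agent.N570.KVPart.qq_nonneg _]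
          · intro p _
            have := WW_nonneg (g := p.1) (k := k) (X := X) (T := T) (BB p.2 γ)
            positivity
  refine (lintegral_mono hpt).trans ?_
  have hΦm : ∀ g : ℕ, Measurable fun B : Fin g → ℝ => ENNReal.ofReal (WW g k X T B ^ s) :=
    fun g => ((WW_meas g k X T).pow_const s).ennreal_ofReal
  have hFm : ∀ p : Σ g : ℕ, (Fin n → Fin g), Measurable fun γ : Fin n → ℝ =>
      (∏ j, ENNReal.ofReal (qq (γ j))) *
        (fun B => ENNReal.ofReal (WW p.1 k X T B ^ s)) (BB p.2 γ) := by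
    intro p
    refine Measurable.mul ?_ ((hΦm p.1).comp (BB_meas p.2))
    exact Finset.measurable_prod _ fun j _ =>
      (Pool.Agent.N570.KVPart.qq_meas.comp (measurable_pi_apply j)).ennreal_ofReal
  rw [lintegral_finsetSum _ fun p _ => (hFm p).const_mul _]
  have hterm : ∀ p ∈ SS n n, ∫⁻ γ : Fin n → ℝ, ENNReal.ofReal ((K : ℝ) ^ s) *
      ((∏ j, ENNReal.ofReal (qq (γ j))) *
        (fun B => ENNReal.ofReal (WW p.1 k X T B ^ s)) (BB p.2 γ)) ≤
      ENNReal.ofReal ((K : ℝ) ^ s * (5 * Real.pi) ^ n) *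
        ∫⁻ B : Fin p.1 → ℝ, ENNReal.ofReal (WW p.1 k X T B ^ s) := by
    intro p hp
    rw [lintegral_const_mul _ (hFm p), ENNReal.ofReal_mul (by positivity), mul_assoc]
    refine mul_le_mul_right ?_ _
    unfold SS at hp
    rw [Finset.mem_sigma, Finset.mem_filter] at hp
    exact shift p.2 hp.2.2 _ (hΦm p.1)
  refine (Finset.sum_le_sum hterm).trans ?_
  unfold SS
  rw [Finset.sum_sigma, Finset.mul_sum]
  refine Finset.sum_le_sum fun g hg => ?_
  change ∑ _f ∈ univ.filter (fun f : Fin n → Fin g => Function.Surjective f),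
    (ENNReal.ofReal ((K : ℝ) ^ s * (5 * Real.pi) ^ n) *
      ∫⁻ B : Fin g → ℝ, ENNReal.ofReal (WW g k X T B ^ s)) ≤ _
  rw [Finset.sum_const, nsmul_eq_mul, ← mul_assoc]
  refine mul_le_mul_left ?_ _
  have hcard : ((univ.filter fun f : Fin n → Fin g => Function.Surjective f).card : ℝ) ≤ (n : ℝ) ^ n := by
    have h1 : (univ.filter fun f : Fin n → Fin g => Function.Surjective f).card ≤ g ^ n := by
      refine (Finset.card_le_univ _).trans (le_of_eq ?_)
      rw [Fintype.card_fun, Fintype.card_fin, Fintype.card_fin]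
    have h2 : g ^ n ≤ n ^ n := Nat.pow_le_pow_left (Finset.mem_Icc.1 hg).2 n
    exact_mod_cast h1.trans h2
  rw [← ENNReal.ofReal_natCast, ← ENNReal.ofReal_mul (Nat.cast_nonneg _)]
  apply ENNReal.ofReal_le_ofReal
  rw [hC]
  have h3 : 0 ≤ (K : ℝ) ^ s * (5 * Real.pi) ^ n := by positivity
  nlinarith [mul_le_mul_of_nonneg_right hcard h3]

/-- KALL -/
theorem kall (h : S_WINT) : S_KALL := by
  intro m k s hm hk hmk hms hks
  obtain ⟨C, hC, hP⟩ := partAll (2 * m) k s (by omega) (by omega)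
  have hW : ∀ g : ℕ, ∃ Cg : ℝ, 0 < Cg ∧ (g ∈ Finset.Icc 1 (2 * m) → ∀ (X : ℕ) (T : ℝ), 2 ≤ X →
      1 ≤ T → ∫⁻ B : Fin g → ℝ, ENNReal.ofReal (WW g k X T B ^ s) ≤
        ENNReal.ofReal (Cg * T ^ g * (X : ℝ) ^ ((g : ℝ) * ((s : ℝ) - k + 1)))) := by
    intro g
    by_cases hg : g ∈ Finset.Icc 1 (2 * m)
    · have hg' := Finset.mem_Icc.1 hg
      obtain ⟨Cg, hCg, H⟩ := h g k s hg'.1 hk (by omega) (by omega)
      exact ⟨Cg, hCg, fun _ => H⟩
    · exact ⟨1, one_pos, fun h => absurd h hg⟩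
  choose Cg hCg HW using hW
  obtain ⟨Q, hQ, hQi⟩ := qq_prod_int (2 * m)
  set A : ℝ := 2 ^ s * (C * ∑ g ∈ Finset.Icc 1 (2 * m), Cg g) + 2 ^ s * Q with hA
  have hsum : 0 < ∑ g ∈ Finset.Icc 1 (2 * m), Cg g :=
    Finset.sum_pos (fun g _ => hCg g) ⟨1, Finset.mem_Icc.2 ⟨le_refl _, by omega⟩⟩
  have hA0 : 0 < A := by positivity
  refine ⟨A, hA0, max 3 ⌈Real.exp (2 * m)⌉₊, ?_⟩
  intro X hX
  have hXb : 3 ≤ X := (le_max_left _ _).trans hX
  have hXc : Real.exp (2 * m) ≤ X := Nat.ceil_le.1 ((le_max_right _ _).trans hX)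
  have hX3 : (3 : ℝ) ≤ X := by exact_mod_cast hXb
  have hX0' : (0 : ℝ) < X := by linarith
  set T : ℝ := Real.log X with hT
  have hT1 : 1 ≤ T := by
    rw [hT, Real.le_log_iff_exp_le hX0']
    have := Real.exp_one_lt_d9
    linarith
  have hTn : 2 * (m : ℝ) ≤ T := by
    rw [hT, Real.le_log_iff_exp_le hX0']; exact hXc
  -- the tail is at most 1
  have htail : ((X : ℝ) + 1) ^ (2 * m) * Real.exp (-(2 * Real.pi ^ 2 * T ^ 2)) ≤ 1 := by
    have e1 : ((X : ℝ) + 1) ≤ Real.exp (2 * T) := by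
      have : Real.exp (2 * T) = (X : ℝ) ^ 2 := by
        rw [two_mul, Real.exp_add, hT, Real.exp_log hX0']; ring
      rw [this]; nlinarith
    have e2 : ((X : ℝ) + 1) ^ (2 * m) ≤ Real.exp (2 * T * (2 * m)) := by
      calc ((X : ℝ) + 1) ^ (2 * m) ≤ (Real.exp (2 * T)) ^ (2 * m) := pow_le_pow_left₀ (by positivity) e1 _
        _ = _ := by rw [← Real.exp_nat_mul]; congr 1; push_cast; ring
    calc _ ≤ Real.exp (2 * T * (2 * m)) * Real.exp (-(2 * Real.pi ^ 2 * T ^ 2)) :=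
          mul_le_mul_of_nonneg_right e2 (Real.exp_pos _).le
      _ = Real.exp (2 * T * (2 * m) - 2 * Real.pi ^ 2 * T ^ 2) := by rw [← Real.exp_add]; congr 1
      _ ≤ 1 := by
        apply Real.exp_le_one_iff.2
        have hpi : 1 ≤ Real.pi ^ 2 := by nlinarith [Real.pi_gt_three]
        have h3 : T * (2 * m) ≤ T * T := mul_le_mul_of_nonneg_left hTn (by linarith)
        have h4 : T * T ≤ Real.pi ^ 2 * T ^ 2 := by nlinarith [sq_nonneg T]
        nlinarith
  -- pointwise bound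
  have hpt : ∀ γ : Fin (2 * m) → ℝ,
      ENNReal.ofReal ((∏ j, qq (γ j)) * GS (2 * m) k X γ ^ s) ≤
        ENNReal.ofReal (2 ^ s) * ENNReal.ofReal ((∏ j, qq (γ j)) * VV (2 * m) k X T γ ^ s) +
        ENNReal.ofReal (2 ^ s) * ENNReal.ofReal (∏ j, qq (γ j)) := by
    intro γ
    have hq : 0 ≤ ∏ j, qq (γ j) := Finset.prod_nonneg fun j _ => Pool.Agent.N954.KV.qq_nonneg _
    have hV := Pool.Agent.N954.KV.VV_nonneg (2 * m) k X T γ
    rw [← ENNReal.ofReal_mul (by positivity), ← ENNReal.ofReal_mul (by positivity),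
      ← ENNReal.ofReal_add (by positivity) (by positivity)]
    apply ENNReal.ofReal_le_ofReal
    have hg : GS (2 * m) k X γ ≤ VV (2 * m) k X T γ + 1 := by
      have := GS_le (2 * m) k X T (by linarith) γ
      linarith
    have hg2 : GS (2 * m) k X γ ^ s ≤ 2 ^ s * (VV (2 * m) k X T γ ^ s + 1) := by
      calc GS (2 * m) k X γ ^ s ≤ (VV (2 * m) k X T γ + 1) ^ s :=
            pow_le_pow_left₀ (GS_nonneg _ _ _ _) hg s
        _ ≤ 2 ^ (s - 1) * (VV (2 * m) k X T γ ^ s + 1 ^ s) := add_pow_le hV zero_le_one s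
        _ ≤ 2 ^ s * (VV (2 * m) k X T γ ^ s + 1) := by
          rw [one_pow]
          apply mul_le_mul_of_nonneg_right _ (by positivity)
          exact pow_le_pow_right₀ (by norm_num) (by omega)
    calc (∏ j, qq (γ j)) * GS (2 * m) k X γ ^ s ≤
          (∏ j, qq (γ j)) * (2 ^ s * (VV (2 * m) k X T γ ^ s + 1)) := mul_le_mul_of_nonneg_left hg2 hq
      _ = _ := by ring
  have hmeas : Measurable fun γ : Fin (2 * m) → ℝ =>
      ENNReal.ofReal (2 ^ s) * ENNReal.ofReal (∏ j, qq (γ j)) := by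
    apply Measurable.const_mul
    apply ENNReal.measurable_ofReal.comp
    exact Finset.measurable_prod _ fun j _ => Pool.Agent.N954.KV.qq_meas.comp (measurable_pi_apply j)
  -- the exponents
  have he : 1 ≤ (s : ℝ) - k + 1 := by
    have : (k : ℝ) ≤ s := by exact_mod_cast hks
    linarith
  set E : ℝ := T ^ (2 * m) * (X : ℝ) ^ (2 * (m : ℝ) * ((s : ℝ) - k + 1)) with hE
  have hE1 : 1 ≤ E := by
    have a1 : 1 ≤ T ^ (2 * m) := one_le_pow₀ hT1
    have a2 : 1 ≤ (X : ℝ) ^ (2 * (m : ℝ) * ((s : ℝ) - k + 1)) :=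
      Real.one_le_rpow (by linarith) (by positivity)
    calc (1 : ℝ) = 1 * 1 := by ring
      _ ≤ _ := mul_le_mul a1 a2 (by norm_num) (by positivity)
  have hgs : ∀ g ∈ Finset.Icc 1 (2 * m), ∫⁻ B : Fin g → ℝ, ENNReal.ofReal (WW g k X T B ^ s) ≤
      ENNReal.ofReal (Cg g * E) := by
    intro g hg
    refine (HW g hg X T (by omega) hT1).trans (ENNReal.ofReal_le_ofReal ?_)
    have hg' := Finset.mem_Icc.1 hg
    have a1 : T ^ g ≤ T ^ (2 * m) := pow_le_pow_right₀ hT1 hg'.2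
    have a2 : (X : ℝ) ^ ((g : ℝ) * ((s : ℝ) - k + 1)) ≤ (X : ℝ) ^ (2 * (m : ℝ) * ((s : ℝ) - k + 1)) := by
      apply Real.rpow_le_rpow_of_exponent_le (by linarith)
      apply mul_le_mul_of_nonneg_right _ (by linarith)
      exact_mod_cast hg'.2
    rw [mul_assoc]
    apply mul_le_mul_of_nonneg_left _ (hCg g).le
    exact mul_le_mul a1 a2 (by positivity) (by positivity)
  calc ∫⁻ γ : Fin (2 * m) → ℝ, ENNReal.ofReal ((∏ j, qq (γ j)) * GS (2 * m) k X γ ^ s)
      ≤ ∫⁻ γ : Fin (2 * m) → ℝ, (ENNReal.ofReal (2 ^ s) *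
          ENNReal.ofReal ((∏ j, qq (γ j)) * VV (2 * m) k X T γ ^ s) +
          ENNReal.ofReal (2 ^ s) * ENNReal.ofReal (∏ j, qq (γ j))) := lintegral_mono hpt
    _ = ENNReal.ofReal (2 ^ s) * (∫⁻ γ : Fin (2 * m) → ℝ,
          ENNReal.ofReal ((∏ j, qq (γ j)) * VV (2 * m) k X T γ ^ s)) +
        ENNReal.ofReal (2 ^ s) * ∫⁻ γ : Fin (2 * m) → ℝ, ENNReal.ofReal (∏ j, qq (γ j)) := by
        rw [lintegral_add_right _ hmeas, lintegral_const_mul' _ _ ENNReal.ofReal_ne_top,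
          lintegral_const_mul' _ _ ENNReal.ofReal_ne_top]
    _ ≤ ENNReal.ofReal (2 ^ s) * (ENNReal.ofReal C * ∑ g ∈ Finset.Icc 1 (2 * m), ENNReal.ofReal (Cg g * E)) +
        ENNReal.ofReal (2 ^ s) * ENNReal.ofReal Q := by
        gcongr
        · refine (hP X T).trans ?_
          gcongr with g hg
          exact hgs g hg
    _ = ENNReal.ofReal (2 ^ s * (C * ∑ g ∈ Finset.Icc 1 (2 * m), Cg g * E) + 2 ^ s * Q) := by
        have hnn : 0 ≤ ∑ g ∈ Finset.Icc 1 (2 * m), Cg g * E :=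
          Finset.sum_nonneg fun g _ => mul_nonneg (hCg g).le (by linarith)
        rw [← ENNReal.ofReal_sum_of_nonneg (fun g _ => mul_nonneg (hCg g).le (by linarith)),
          ← ENNReal.ofReal_mul hC.le, ← ENNReal.ofReal_mul (by positivity),
          ← ENNReal.ofReal_mul (by positivity), ← ENNReal.ofReal_add (by positivity) (by positivity)]
    _ ≤ ENNReal.ofReal (A * T ^ (2 * m) * (X : ℝ) ^ (2 * (m : ℝ) * ((s : ℝ) - k + 1))) := by
        apply ENNReal.ofReal_le_ofReal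
        rw [← Finset.sum_mul, mul_assoc A, ← hE, hA]
        have : 2 ^ s * Q ≤ 2 ^ s * Q * E := le_mul_of_one_le_right (by positivity) hE1
        nlinarith

end Pool.Agent.N415.AKAll
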