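import Pool.Agent.N604.MW.Stm9

/-! # Project GS (helper604): the measure of the shifts for one pair (helper415) -/

set_option autoImplicit false

namespace Pool.Agent.N415.GSMeas

open Finset MeasureTheory Pool.Agent.N604.MW

/-- the derivative of `PP d c b θ` -/
noncomputable def dP (d : ℕ) (c : ℝ) (θ : Fin d → ℝ) (x : ℝ) : ℝ :=
  c * (((d : ℝ) + 1) * x ^ d) + ∑ j : Fin d, θ j * ((((j : ℕ) : ℝ) + 1) * x ^ (j : ℕ))

theorem der (d : ℕ) (c b : ℝ) (θ : Fin d → ℝ) (x : ℝ) : HasDerivAt (PP d c b θ) (dP d c θ x) x := by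
  unfold dP
  have h1 : HasDerivAt (fun x : ℝ => c * x ^ (d + 1)) (c * (((d : ℝ) + 1) * x ^ d)) x := by
    have := (hasDerivAt_pow (d + 1) x).const_mul c
    rw [Nat.add_sub_cancel, Nat.cast_add, Nat.cast_one] at this
    exact this
  have h2 : HasDerivAt (fun x : ℝ => ∑ j : Fin d, θ j * x ^ ((j : ℕ) + 1))
      (∑ j : Fin d, θ j * ((((j : ℕ) : ℝ) + 1) * x ^ (j : ℕ))) x := by
    refine HasDerivAt.fun_sum fun j _ => ?_
    have := (hasDerivAt_pow ((j : ℕ) + 1) x).const_mul (θ j)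
    rw [Nat.add_sub_cancel, Nat.cast_add, Nat.cast_one] at this
    exact this
  exact (h1.add h2).add_const b

theorem geo_le {X x y : ℝ} (hX : 1 ≤ X) (hx0 : 0 ≤ x) (hy0 : 0 ≤ y) (hx : x ≤ 3 * X) (hy : y ≤ 3 * X) (n : ℕ) :
    ∑ l ∈ range n, x ^ l * y ^ (n - 1 - l) ≤ n * (3 * X) ^ (n - 1) := by
  calc ∑ l ∈ range n, x ^ l * y ^ (n - 1 - l) ≤ ∑ l ∈ range n, (3 * X) ^ (n - 1) := by
        refine sum_le_sum fun l hl => ?_
        have hl' := mem_range.mp hl
        calc x ^ l * y ^ (n - 1 - l) ≤ (3 * X) ^ l * (3 * X) ^ (n - 1 - l) := by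
              refine mul_le_mul (pow_le_pow_left₀ hx0 hx l) (pow_le_pow_left₀ hy0 hy _) (by positivity)
                (by positivity)
          _ = (3 * X) ^ (n - 1) := by
              rw [← pow_add]; congr 1; omega
    _ = n * (3 * X) ^ (n - 1) := by rw [sum_const, card_range, nsmul_eq_mul]

theorem geo_ge {X x y : ℝ} (hX : 1 ≤ X) (hx : X / 2 ≤ x) (hy : X / 2 ≤ y) (n : ℕ) :
    n * (X / 2) ^ (n - 1) ≤ ∑ l ∈ range n, x ^ l * y ^ (n - 1 - l) := by
  have h0 : 0 ≤ X / 2 := by linarith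
  calc (n : ℝ) * (X / 2) ^ (n - 1) = ∑ l ∈ range n, (X / 2) ^ (n - 1) := by
        rw [sum_const, card_range, nsmul_eq_mul]
    _ ≤ ∑ l ∈ range n, x ^ l * y ^ (n - 1 - l) := by
        refine sum_le_sum fun l hl => ?_
        have hl' := mem_range.mp hl
        calc (X / 2) ^ (n - 1) = (X / 2) ^ l * (X / 2) ^ (n - 1 - l) := by
              rw [← pow_add]; congr 1; omega
          _ ≤ x ^ l * y ^ (n - 1 - l) := by
              refine mul_le_mul (pow_le_pow_left₀ h0 hx l) (pow_le_pow_left₀ h0 hy _) (by positivity)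
                (pow_nonneg (h0.trans hx) _)

/-- differences of the derivative -/
theorem key (d : ℕ) (hd : 1 ≤ d) (c : ℝ) (hc : 0 < c) (θ : Fin d → ℝ) : ∃ c0 C1 : ℝ, ∃ X0 : ℕ, 0 < c0 ∧ 0 < C1 ∧
    ∀ X : ℝ, 1 ≤ X → (X0 : ℝ) ≤ X → ∀ x y : ℝ, X / 2 ≤ x → x ≤ 3 * X → X / 2 ≤ y → y ≤ 3 * X →
      c0 * X ^ (d - 1) * |x - y| ≤ |dP d c θ x - dP d c θ y| ∧
      |dP d c θ x - dP d c θ y| ≤ C1 * X ^ (d - 1) * |x - y| := by
  have hdR : (1 : ℝ) ≤ d := by exact_mod_cast hd
  set K : ℝ := ∑ j : Fin d, |θ j| * ((((j : ℕ) : ℝ) + 1) * ((j : ℕ) * 3 ^ (j : ℕ))) with hK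
  have hK0 : 0 ≤ K := sum_nonneg fun j _ => by positivity
  set c0 : ℝ := c * (((d : ℝ) + 1) * (d / 2 ^ (d - 1))) / 2 with hc0
  have hc0p : 0 < c0 := by
    have : (0 : ℝ) < d := by linarith
    positivity
  refine ⟨c0, c * (((d : ℝ) + 1) * (d * 3 ^ (d - 1))) + c0, ⌈K / c0⌉₊, hc0p, by positivity,
    fun X hX1 hX x y hx hx3 hy hy3 => ?_⟩
  have hX0 : (0 : ℝ) < X := by linarith
  have hKX : K ≤ c0 * X := by
    have h1 : K / c0 ≤ X := (Nat.le_ceil _).trans hX
    rw [div_le_iff₀ hc0p] at h1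
    linarith
  set W : ℝ := X ^ (d - 1) with hW
  have hWp : 0 < W := by positivity
  set G : ℕ → ℝ := fun n => ∑ l ∈ range n, x ^ l * y ^ (n - 1 - l) with hG
  have hGm : ∀ n, x ^ n - y ^ n = G n * (x - y) := fun n => (geom_sum₂_mul x y n).symm
  have hx0 : 0 ≤ x := by linarith
  have hy0 : 0 ≤ y := by linarith
  have hG0 : ∀ n, 0 ≤ G n := fun n => sum_nonneg fun l _ => by positivity
  have hdiff : dP d c θ x - dP d c θ y
      = (c * (((d : ℝ) + 1) * G d) + ∑ j : Fin d, θ j * ((((j : ℕ) : ℝ) + 1) * G j)) * (x - y) := by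
    unfold dP
    rw [add_mul (c * (((d : ℝ) + 1) * G d)), sum_mul]
    have h1 : c * (((d : ℝ) + 1) * x ^ d) + ∑ j : Fin d, θ j * ((((j : ℕ) : ℝ) + 1) * x ^ (j : ℕ)) -
        (c * (((d : ℝ) + 1) * y ^ d) + ∑ j : Fin d, θ j * ((((j : ℕ) : ℝ) + 1) * y ^ (j : ℕ)))
        = c * (((d : ℝ) + 1) * (x ^ d - y ^ d)) +
          ∑ j : Fin d, θ j * ((((j : ℕ) : ℝ) + 1) * (x ^ (j : ℕ) - y ^ (j : ℕ))) := by
      have h2 : ∑ j : Fin d, θ j * ((((j : ℕ) : ℝ) + 1) * (x ^ (j : ℕ) - y ^ (j : ℕ)))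
          = ∑ j : Fin d, θ j * ((((j : ℕ) : ℝ) + 1) * x ^ (j : ℕ)) -
            ∑ j : Fin d, θ j * ((((j : ℕ) : ℝ) + 1) * y ^ (j : ℕ)) := by
        rw [← sum_sub_distrib]
        exact sum_congr rfl fun j _ => by ring
      rw [h2]; ring
    rw [h1, hGm d]
    congr 1
    · ring
    · refine sum_congr rfl fun j _ => ?_
      rw [hGm j]; ring
  -- the lower order terms
  have hS : |∑ j : Fin d, θ j * ((((j : ℕ) : ℝ) + 1) * G j)| ≤ c0 * W := by
    have h1 : |∑ j : Fin d, θ j * ((((j : ℕ) : ℝ) + 1) * G j)| * X ≤ K * W := by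
      calc |∑ j : Fin d, θ j * ((((j : ℕ) : ℝ) + 1) * G j)| * X
          ≤ (∑ j : Fin d, |θ j * ((((j : ℕ) : ℝ) + 1) * G j)|) * X :=
            mul_le_mul_of_nonneg_right (abs_sum_le_sum_abs _ _) hX0.le
        _ = ∑ j : Fin d, |θ j| * ((((j : ℕ) : ℝ) + 1) * (G j * X)) := by
            rw [sum_mul]
            refine sum_congr rfl fun j _ => ?_
            rw [abs_mul, abs_of_nonneg (show 0 ≤ (((j : ℕ) : ℝ) + 1) * G j by
              have := hG0 j; positivity)]
            ring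
        _ ≤ ∑ j : Fin d, |θ j| * ((((j : ℕ) : ℝ) + 1) * ((j : ℕ) * 3 ^ (j : ℕ) * W)) := by
            refine sum_le_sum fun j _ => ?_
            refine mul_le_mul_of_nonneg_left (mul_le_mul_of_nonneg_left ?_ (by positivity)) (abs_nonneg _)
            have hg := geo_le hX1 hx0 hy0 hx3 hy3 (j : ℕ)
            rcases Nat.eq_zero_or_pos (j : ℕ) with hj | hj
            · have : G j = 0 := by rw [hG]; simp [hj]
              rw [this, hj]; simp
            · have hj1 : (j : ℕ) ≤ d - 1 := by have := j.2; omega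
              calc G j * X ≤ ((j : ℕ) * (3 * X) ^ ((j : ℕ) - 1)) * X :=
                    mul_le_mul_of_nonneg_right hg hX0.le
                _ = (j : ℕ) * 3 ^ ((j : ℕ) - 1) * X ^ (j : ℕ) := by
                    obtain ⟨m, hm⟩ := Nat.exists_eq_add_of_le' hj
                    rw [hm]
                    simp only [Nat.add_sub_cancel]
                    rw [mul_pow, pow_succ X m]
                    ring
                _ ≤ (j : ℕ) * 3 ^ (j : ℕ) * W := by
                    refine mul_le_mul (mul_le_mul_of_nonneg_left ?_ (Nat.cast_nonneg _)) ?_ (by positivity)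
                      (by positivity)
                    · exact pow_le_pow_right₀ (by norm_num) (Nat.sub_le _ _)
                    · exact pow_le_pow_right₀ hX1 hj1
        _ = K * W := by
            rw [hK, sum_mul]
            exact sum_congr rfl fun j _ => by ring
    have h2 : |∑ j : Fin d, θ j * ((((j : ℕ) : ℝ) + 1) * G j)| * X ≤ (c0 * W) * X := by
      calc _ ≤ K * W := h1
        _ ≤ (c0 * X) * W := mul_le_mul_of_nonneg_right hKX hWp.le
        _ = (c0 * W) * X := by ring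
    exact le_of_mul_le_mul_right h2 hX0
  have hlo : 2 * c0 * W ≤ c * (((d : ℝ) + 1) * G d) := by
    have h1 := geo_ge hX1 hx hy d
    have h2 : (d : ℝ) * (X / 2) ^ (d - 1) = d / 2 ^ (d - 1) * W := by
      rw [div_pow]; ring
    rw [h2] at h1
    calc 2 * c0 * W = c * (((d : ℝ) + 1) * (d / 2 ^ (d - 1) * W)) := by rw [hc0]; ring
      _ ≤ c * (((d : ℝ) + 1) * G d) := by
        refine mul_le_mul_of_nonneg_left (mul_le_mul_of_nonneg_left h1 (by positivity)) hc.le
  have hup : c * (((d : ℝ) + 1) * G d) ≤ c * (((d : ℝ) + 1) * (d * 3 ^ (d - 1))) * W := by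
    have h1 := geo_le hX1 hx0 hy0 hx3 hy3 d
    have h2 : (d : ℝ) * (3 * X) ^ (d - 1) = d * 3 ^ (d - 1) * W := by
      rw [mul_pow]; ring
    rw [h2] at h1
    calc c * (((d : ℝ) + 1) * G d) ≤ c * (((d : ℝ) + 1) * (d * 3 ^ (d - 1) * W)) := by
          refine mul_le_mul_of_nonneg_left (mul_le_mul_of_nonneg_left h1 (by positivity)) hc.le
      _ = _ := by ring
  obtain ⟨s1, s2⟩ := abs_le.mp hS
  set br : ℝ := c * (((d : ℝ) + 1) * G d) + ∑ j : Fin d, θ j * ((((j : ℕ) : ℝ) + 1) * G j) with hbr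
  have hb1 : c0 * W ≤ br := by rw [hbr]; linarith
  have hb2 : br ≤ (c * (((d : ℝ) + 1) * (d * 3 ^ (d - 1))) + c0) * W := by rw [hbr]; linarith
  have hb0 : 0 ≤ br := (mul_nonneg hc0p.le hWp.le).trans hb1
  rw [hdiff, abs_mul, abs_of_nonneg hb0]
  exact ⟨mul_le_mul_of_nonneg_right hb1 (abs_nonneg _), mul_le_mul_of_nonneg_right hb2 (abs_nonneg _)⟩

/-- differences of differences -/
theorem two (d : ℕ) (hd : 1 ≤ d) (c b : ℝ) (hc : 0 < c) (θ : Fin d → ℝ) (B : ℝ) : ∃ c0 C1 : ℝ, ∃ X0 : ℕ,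
    0 < c0 ∧ 0 < C1 ∧ ∀ X : ℝ, 1 ≤ X → 2 * B ≤ X → (X0 : ℝ) ≤ X → ∀ p q : ℝ, X ≤ p → p ≤ 2 * X → X ≤ q → q ≤ 2 * X →
      ∀ t t' : ℝ, |t| ≤ B → |t'| ≤ B →
      c0 * X ^ (d - 1) * |p - q| * |t - t'| ≤ |(PP d c b θ (p + t) - PP d c b θ (q + t)) -
        (PP d c b θ (p + t') - PP d c b θ (q + t'))| ∧
      |(PP d c b θ (p + t) - PP d c b θ (q + t)) - (PP d c b θ (p + t') - PP d c b θ (q + t'))|
        ≤ C1 * X ^ (d - 1) * |p - q| * |t - t'| := by
  obtain ⟨c0, C1, X0, h0, h1, hk⟩ := key d hd c hc θ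
  refine ⟨c0, C1, X0, h0, h1, fun X hX1 hXB hX p q hp hp2 hq hq2 => ?_⟩
  have main : ∀ t t' : ℝ, |t| ≤ B → |t'| ≤ B → t < t' →
      c0 * X ^ (d - 1) * |p - q| * |t - t'| ≤ |(PP d c b θ (p + t) - PP d c b θ (q + t)) -
        (PP d c b θ (p + t') - PP d c b θ (q + t'))| ∧
      |(PP d c b θ (p + t) - PP d c b θ (q + t)) - (PP d c b θ (p + t') - PP d c b θ (q + t'))|
        ≤ C1 * X ^ (d - 1) * |p - q| * |t - t'| := by
    intro t t' ht ht' htt
    have hder : ∀ u : ℝ, HasDerivAt (fun u => PP d c b θ (p + u) - PP d c b θ (q + u))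
        (dP d c θ (p + u) - dP d c θ (q + u)) u := by
      intro u
      exact ((der d c b θ (p + u)).comp_const_add p u).sub ((der d c b θ (q + u)).comp_const_add q u)
    obtain ⟨ξ, hξ, hs⟩ := exists_hasDerivAt_eq_slope (fun u => PP d c b θ (p + u) - PP d c b θ (q + u))
      (fun u => dP d c θ (p + u) - dP d c θ (q + u)) htt
      (fun u _ => (hder u).continuousAt.continuousWithinAt) (fun u _ => hder u)
    obtain ⟨ta, tb⟩ := abs_le.mp ht
    obtain ⟨ta', tb'⟩ := abs_le.mp ht'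
    have hξ1 := hξ.1
    have hξ2 := hξ.2
    obtain ⟨k1, k2⟩ := hk X hX1 hX (p + ξ) (q + ξ) (by linarith) (by linarith) (by linarith) (by linarith)
    have e0 : p + ξ - (q + ξ) = p - q := by ring
    rw [e0] at k1 k2
    have htpos : 0 < t' - t := by linarith
    have e1 : (PP d c b θ (p + t) - PP d c b θ (q + t)) - (PP d c b θ (p + t') - PP d c b θ (q + t'))
        = (dP d c θ (p + ξ) - dP d c θ (q + ξ)) * (t - t') := by
      rw [hs]
      field_simp
      ring
    rw [e1, abs_mul]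
    exact ⟨mul_le_mul_of_nonneg_right k1 (abs_nonneg _), mul_le_mul_of_nonneg_right k2 (abs_nonneg _)⟩
  intro t t' ht ht'
  rcases lt_trichotomy t t' with h | h | h
  · exact main t t' ht ht' h
  · subst h; simp
  · have := main t' t ht' ht h
    rw [abs_sub_comm t' t, abs_sub_comm (PP d c b θ (p + t') - PP d c b θ (q + t'))] at this
    exact this

theorem contPP (d : ℕ) (c b : ℝ) (θ : Fin d → ℝ) : Continuous (PP d c b θ) := by
  unfold PP; fun_prop

theorem smeas : S_SMEAS := by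
  intro d c b θ B hd hc hB
  choose c0 C1 X1 h0 h1 hk using fun i : Fin (d + 1) => two d hd (c i) (b i) (hc i) (θ i) B
  set CA : ℝ := ∑ i : Fin (d + 1), (2 * B) ^ d * (2 * ((d : ℝ) + 1)) / c0 i with hCA
  set CB : ℝ := ((d : ℝ) + 1) + ∑ i : Fin (d + 1), C1 i * B with hCB
  have hCA0 : 0 ≤ CA := sum_nonneg fun i _ => by have := h0 i; positivity
  have hCB0 : 0 < CB := by
    have : 0 ≤ ∑ i : Fin (d + 1), C1 i * B := sum_nonneg fun i _ => by have := h1 i; positivity
    have : (0 : ℝ) ≤ d := Nat.cast_nonneg d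
    positivity
  refine ⟨CA + CB, by linarith, 1 + ⌈2 * B⌉₊ + ∑ i, X1 i, fun X hX n hn m hm j hj hmax => ?_⟩
  have hX1' : 1 ≤ X := by omega
  have hX1 : (1 : ℝ) ≤ X := by exact_mod_cast hX1'
  have hX0 : (0 : ℝ) < X := by linarith
  have hXB : 2 * B ≤ X := by
    have h2 : (⌈2 * B⌉₊ : ℝ) ≤ X := by
      have : ⌈2 * B⌉₊ ≤ X := by omega
      exact_mod_cast this
    exact (Nat.le_ceil _).trans h2
  have hXi : ∀ i, (X1 i : ℝ) ≤ X := by
    intro i
    have h2 : X1 i ≤ ∑ i, X1 i := single_le_sum (f := X1) (fun i _ => Nat.zero_le _) (mem_univ i)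
    have : X1 i ≤ X := by omega
    exact_mod_cast this
  have hbn : ∀ i, (X : ℝ) ≤ n i ∧ (n i : ℝ) ≤ 2 * X := by
    intro i
    have h2 := mem_Icc.mp (Fintype.mem_piFinset.mp hn i)
    exact ⟨by exact_mod_cast h2.1, by exact_mod_cast h2.2⟩
  have hbm : ∀ i, (X : ℝ) ≤ m i ∧ (m i : ℝ) ≤ 2 * X := by
    intro i
    have h2 := mem_Icc.mp (Fintype.mem_piFinset.mp hm i)
    exact ⟨by exact_mod_cast h2.1, by exact_mod_cast h2.2⟩
  have hδ1 : (1 : ℝ) ≤ |(n j : ℝ) - m j| := by
    have h2 : ((n j : ℤ) - (m j : ℤ)) ≠ 0 := by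
      intro h3
      exact hj (by exact_mod_cast sub_eq_zero.1 h3)
    have h4 := Int.one_le_abs h2
    have h5 : ((1 : ℤ) : ℝ) ≤ ((|(n j : ℤ) - (m j : ℤ)| : ℤ) : ℝ) := by exact_mod_cast h4
    push_cast at h5
    exact h5
  set δ : ℝ := |(n j : ℝ) - m j| with hδ
  set W : ℝ := (X : ℝ) ^ (d - 1) with hW
  have hW1 : 1 ≤ W := one_le_pow₀ hX1
  have hδW : 1 ≤ δ * W := one_le_mul_of_one_le_of_one_le hδ1 hW1
  constructor
  · -- the measure
    set L : ℝ := c0 j * W * δ with hL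
    have hLp : 0 < L := by have := h0 j; positivity
    set f : Fin (d + 1) → ℝ → ℝ := fun i u => PP d (c i) (b i) (θ i) ((n i : ℝ) + u) -
      PP d (c i) (b i) (θ i) ((m i : ℝ) + u) with hf
    have hfc : ∀ i, Continuous (f i) := by
      intro i
      exact ((contPP d (c i) (b i) (θ i)).comp (continuous_const.add continuous_id)).sub
        ((contPP d (c i) (b i) (θ i)).comp (continuous_const.add continuous_id))
    obtain ⟨T, hT⟩ : ∃ T : Set (ℝ × (Fin d → ℝ)), T =
        {p | p.2 ∈ Set.Icc (fun _ => -B) (fun _ => B) ∧ |p.1| ≤ B ∧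
          |f j p.1 + ∑ i, f (j.succAbove i) (p.2 i)| ≤ (d : ℝ) + 1} := ⟨_, rfl⟩
    have hTm : MeasurableSet T := by
      rw [hT]
      have h2 : IsClosed {p : ℝ × (Fin d → ℝ) | p.2 ∈ Set.Icc (fun _ => -B) (fun _ => B)} :=
        isClosed_Icc.preimage continuous_snd
      have h3 : IsClosed {p : ℝ × (Fin d → ℝ) | |p.1| ≤ B} :=
        isClosed_le (continuous_abs.comp continuous_fst) continuous_const
      have h4 : IsClosed {p : ℝ × (Fin d → ℝ) |
          |f j p.1 + ∑ i, f (j.succAbove i) (p.2 i)| ≤ (d : ℝ) + 1} := by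
        refine isClosed_le (continuous_abs.comp (((hfc j).comp continuous_fst).add ?_)) continuous_const
        exact continuous_finsetSum _ fun i _ => (hfc _).comp ((continuous_apply i).comp continuous_snd)
      exact (h2.inter (h3.inter h4)).measurableSet
    have hmp := MeasureTheory.volume_preserving_piFinSuccAbove (fun _ : Fin (d + 1) => ℝ) j
    have hsub : SS d c b θ B n m ⊆ (MeasurableEquiv.piFinSuccAbove (fun _ : Fin (d + 1) => ℝ) j) ⁻¹' T := by
      rintro t ⟨ht1, ht2⟩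
      rw [Set.mem_preimage, hT]
      refine ⟨⟨fun i => ?_, fun i => ?_⟩, ht1 j, ?_⟩
      · exact (abs_le.1 (ht1 _)).1
      · exact (abs_le.1 (ht1 _)).2
      · unfold SD at ht2
        rw [Fin.sum_univ_succAbove _ j] at ht2
        exact ht2
    have hsec : ∀ y : Fin d → ℝ, volume ((fun x : ℝ => (x, y)) ⁻¹' T) ≤
        (Set.Icc (fun _ => -B) (fun _ => B) : Set (Fin d → ℝ)).indicator
          (fun _ => ENNReal.ofReal (2 * ((d : ℝ) + 1) / L)) y := by
      intro y
      by_cases hy : y ∈ (Set.Icc (fun _ => -B) (fun _ => B) : Set (Fin d → ℝ))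
      · rw [Set.indicator_of_mem hy]
        refine (Real.volume_le_diam _).trans ?_
        refine Metric.ediam_le fun x hx x' hx' => ?_
        rw [Set.mem_preimage, hT] at hx hx'
        obtain ⟨_, hxB, hxf⟩ := hx
        obtain ⟨_, hxB', hxf'⟩ := hx'
        rw [edist_dist, Real.dist_eq]
        refine ENNReal.ofReal_le_ofReal ?_
        rw [le_div_iff₀ hLp]
        have hk1 := (hk j X hX1 hXB (hXi j) (n j) (m j) (hbn j).1 (hbn j).2 (hbm j).1 (hbm j).2 x x' hxB hxB').1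
        have hfx : |f j x - f j x'| ≤ 2 * ((d : ℝ) + 1) := by
          have e : f j x - f j x' = (f j x + ∑ i, f (j.succAbove i) (y i)) -
            (f j x' + ∑ i, f (j.succAbove i) (y i)) := by ring
          rw [e]
          refine (abs_sub _ _).trans ?_
          have a1 : |f j x + ∑ i, f (j.succAbove i) (y i)| ≤ (d : ℝ) + 1 := hxf
          have a2 : |f j x' + ∑ i, f (j.succAbove i) (y i)| ≤ (d : ℝ) + 1 := hxf'
          linarith
        calc |x - x'| * L = c0 j * (X : ℝ) ^ (d - 1) * |(n j : ℝ) - m j| * |x - x'| := by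
              rw [hL, hδ, hW]; ring
          _ ≤ |f j x - f j x'| := hk1
          _ ≤ 2 * ((d : ℝ) + 1) := hfx
      · rw [Set.indicator_of_notMem hy]
        have h2 : (fun x : ℝ => (x, y)) ⁻¹' T = ∅ := by
          rw [Set.eq_empty_iff_forall_notMem]
          intro x hx
          rw [Set.mem_preimage, hT] at hx
          exact hy hx.1
        rw [h2, measure_empty]
    calc volume (SS d c b θ B n m)
        ≤ volume ((MeasurableEquiv.piFinSuccAbove (fun _ : Fin (d + 1) => ℝ) j) ⁻¹' T) := measure_mono hsub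
      _ = volume T := hmp.measure_preimage hTm.nullMeasurableSet
      _ = ∫⁻ y : Fin d → ℝ, volume ((fun x : ℝ => (x, y)) ⁻¹' T) := by
          rw [Measure.volume_eq_prod]
          exact Measure.prod_apply_symm hTm
      _ ≤ ∫⁻ y : Fin d → ℝ, (Set.Icc (fun _ => -B) (fun _ => B) : Set (Fin d → ℝ)).indicator
          (fun _ => ENNReal.ofReal (2 * ((d : ℝ) + 1) / L)) y := lintegral_mono hsec
      _ = ENNReal.ofReal (2 * ((d : ℝ) + 1) / L) *
          volume (Set.Icc (fun _ => -B) (fun _ => B) : Set (Fin d → ℝ)) :=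
          lintegral_indicator_const measurableSet_Icc _
      _ = ENNReal.ofReal (2 * ((d : ℝ) + 1) / L) * ENNReal.ofReal ((2 * B) ^ d) := by
          rw [Real.volume_Icc_pi]
          congr 1
          rw [Finset.prod_const, Finset.card_univ, Fintype.card_fin, ENNReal.ofReal_pow (by positivity)]
          congr 2
          ring
      _ = ENNReal.ofReal ((2 * B) ^ d * (2 * ((d : ℝ) + 1)) / c0 j / (δ * W)) := by
          rw [← ENNReal.ofReal_mul (by positivity)]
          congr 1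
          rw [hL]
          have := (h0 j).ne'
          field_simp
      _ ≤ ENNReal.ofReal ((CA + CB) / (δ * W)) := by
          refine ENNReal.ofReal_le_ofReal (div_le_div_of_nonneg_right ?_ (by positivity))
          have h2 : (2 * B) ^ d * (2 * ((d : ℝ) + 1)) / c0 j ≤ CA :=
            single_le_sum (f := fun i => (2 * B) ^ d * (2 * ((d : ℝ) + 1)) / c0 i)
              (fun i _ => by have := h0 i; positivity) (mem_univ j)
          linarith
  · rintro ⟨t, ht1, ht2⟩
    have hdif : |SD d c b θ 0 n m| ≤ |SD d c b θ t n m| + ∑ i, C1 i * B * (δ * W) := by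
      have e : SD d c b θ 0 n m = SD d c b θ t n m - ∑ i, ((PP d (c i) (b i) (θ i) ((n i : ℝ) + t i) -
          PP d (c i) (b i) (θ i) ((m i : ℝ) + t i)) - (PP d (c i) (b i) (θ i) ((n i : ℝ) + 0) -
          PP d (c i) (b i) (θ i) ((m i : ℝ) + 0))) := by
        unfold SD
        rw [sum_sub_distrib (f := fun i => PP d (c i) (b i) (θ i) ((n i : ℝ) + t i) -
          PP d (c i) (b i) (θ i) ((m i : ℝ) + t i))]
        simp only [Pi.zero_apply]
        ring
      rw [e]
      refine (abs_sub _ _).trans ?_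
      refine add_le_add le_rfl ?_
      refine (abs_sum_le_sum_abs _ _).trans (sum_le_sum fun i _ => ?_)
      have hk2 := (hk i X hX1 hXB (hXi i) (n i) (m i) (hbn i).1 (hbn i).2 (hbm i).1 (hbm i).2 (t i) 0 (ht1 i)
        (by rw [abs_zero]; exact hB.le)).2
      refine hk2.trans ?_
      rw [sub_zero]
      have := h1 i
      calc C1 i * (X : ℝ) ^ (d - 1) * |(n i : ℝ) - m i| * |t i| ≤ C1 i * (X : ℝ) ^ (d - 1) * δ * B := by
            refine mul_le_mul (mul_le_mul_of_nonneg_left (hmax i) (by positivity)) (ht1 i) (abs_nonneg _)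
              (by positivity)
        _ = C1 i * B * (δ * W) := by rw [hW]; ring
    have h3 : ∑ i, C1 i * B * (δ * W) = (∑ i, C1 i * B) * (δ * W) := by rw [sum_mul]
    have hd0 : (0 : ℝ) ≤ (d : ℝ) + 1 := by positivity
    calc |SD d c b θ 0 n m| ≤ |SD d c b θ t n m| + ∑ i, C1 i * B * (δ * W) := hdif
      _ ≤ ((d : ℝ) + 1) * (δ * W) + (∑ i, C1 i * B) * (δ * W) := by
          rw [h3]
          refine add_le_add (ht2.trans ?_) le_rfl
          exact le_mul_of_one_le_right hd0 hδW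
      _ = CB * (δ * W) := by rw [hCB]; ring
      _ ≤ (CA + CB) * (δ * W) := mul_le_mul_of_nonneg_right (by linarith) (by positivity)
      _ = (CA + CB) * δ * W := by ring

end Pool.Agent.N415.GSMeas
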