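import Mathlib
import Pool.Agent.N804.PV.Def

/-!
# PV/7: the variance of primes in short intervals just below `x = T` (helper415)
-/

set_option autoImplicit false

namespace Pool.Agent.N415.PV7

open Filter Topology Set MeasureTheory Pool.Agent.N804.PV

/-- a jump of `ψ` over an interval of length at most one -/
lemma psi_jump {x y T : ℝ} (hx : 0 ≤ x) (hy : y ≤ x + 1) (hxT : x ≤ T) :
    Chebyshev.psi y - Chebyshev.psi x ≤ Real.log (T + 1) := by
  have h1 := Chebyshev.psi_mono hy
  have h2 : Chebyshev.psi (x + 1) =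
      Chebyshev.psi x + ArithmeticFunction.vonMangoldt (⌊x⌋₊ + 1) := by
    unfold Chebyshev.psi
    rw [Nat.floor_add_one hx, Finset.sum_Ioc_succ_top (Nat.zero_le _)]
  have h3 : ArithmeticFunction.vonMangoldt (⌊x⌋₊ + 1) ≤ Real.log ((⌊x⌋₊ + 1 : ℕ) : ℝ) :=
    ArithmeticFunction.vonMangoldt_le_log
  have h4 : Real.log ((⌊x⌋₊ + 1 : ℕ) : ℝ) ≤ Real.log (T + 1) := by
    refine Real.log_le_log (by positivity) ?_
    push_cast
    have := Nat.floor_le hx
    linarith
  linarith

/-- `e^{-y} ψ(e^y)` -/
noncomputable def E (y : ℝ) : ℝ := Real.exp (-y) * Chebyshev.psi (Real.exp y)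

lemma E_nonneg (y : ℝ) : 0 ≤ E y := mul_nonneg (Real.exp_pos _).le (Chebyshev.psi_nonneg _)

lemma E_le (y : ℝ) : E y ≤ Real.log 4 + 4 := by
  unfold E
  have h := Chebyshev.psi_le_const_mul_self (Real.exp_pos y).le
  calc Real.exp (-y) * Chebyshev.psi (Real.exp y)
      ≤ Real.exp (-y) * ((Real.log 4 + 4) * Real.exp y) :=
        mul_le_mul_of_nonneg_left h (Real.exp_pos _).le
    _ = (Real.log 4 + 4) * (Real.exp (-y) * Real.exp y) := by ring
    _ = Real.log 4 + 4 := by rw [← Real.exp_add, neg_add_cancel, Real.exp_zero, mul_one]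

lemma E_int (a b : ℝ) : IntervalIntegrable E volume a b := by
  have h1 : Monotone (fun y : ℝ => Chebyshev.psi (Real.exp y)) :=
    Chebyshev.psi_mono.comp Real.exp_monotone
  exact h1.intervalIntegrable.continuousOn_mul (by fun_prop)

lemma E_integral_le {a b : ℝ} (hab : a ≤ b) :
    ∫ y in a..b, E y ≤ (Real.log 4 + 4) * (b - a) := by
  have := intervalIntegral.integral_mono_on hab (E_int a b)
    (intervalIntegrable_const (μ := volume) (c := Real.log 4 + 4)) (fun y _ => E_le y)
  rw [intervalIntegral.integral_const, smul_eq_mul] at this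
  linarith

lemma E_integral_nonneg {a b : ℝ} (hab : a ≤ b) : 0 ≤ ∫ y in a..b, E y :=
  intervalIntegral.integral_nonneg hab fun y _ => E_nonneg y

/-- the first moment -/
lemma first_moment {T a b : ℝ} (hT : 1 ≤ T) (hab : a ≤ b) :
    IntervalIntegrable (fun y => Real.exp (-y) *
      (Chebyshev.psi (Real.exp y * (1 + 1 / T)) - Chebyshev.psi (Real.exp y))) volume a b ∧
    ∫ y in a..b, Real.exp (-y) *
      (Chebyshev.psi (Real.exp y * (1 + 1 / T)) - Chebyshev.psi (Real.exp y)) ≤
      (Real.log 4 + 4) * (b - a + 2) / T := by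
  have hT0 : 0 < T := by linarith
  set h := Real.log (1 + 1 / T) with hh
  have hpos : 0 < 1 / T := by positivity
  have hexp : Real.exp h = 1 + 1 / T := Real.exp_log (by positivity)
  have hh0 : 0 ≤ h := Real.log_nonneg (by linarith)
  have hhT : h ≤ 1 / T := by
    have := Real.log_le_sub_one_of_pos (by positivity : 0 < 1 + 1 / T)
    linarith
  have e1 : (fun y => Real.exp (-y) *
      (Chebyshev.psi (Real.exp y * (1 + 1 / T)) - Chebyshev.psi (Real.exp y))) =
      fun y => (1 + 1 / T) * E (y + h) - E y := by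
    funext y
    unfold E
    rw [← hexp, ← Real.exp_add, ← mul_assoc, ← Real.exp_add, mul_sub,
      show h + -(y + h) = -y by ring]
  have hEh : IntervalIntegrable (fun y => E (y + h)) volume a b := by
    have := (E_int (a + h) (b + h)).comp_add_right h
    simpa using this
  rw [e1]
  refine ⟨(hEh.const_mul _).sub (E_int a b), ?_⟩
  rw [intervalIntegral.integral_sub (hEh.const_mul _) (E_int a b),
    intervalIntegral.integral_const_mul, intervalIntegral.integral_comp_add_right]
  have s1 := intervalIntegral.integral_add_adjacent_intervals (E_int a (a + h))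
    (E_int (a + h) (b + h))
  have s2 := intervalIntegral.integral_add_adjacent_intervals (E_int a b) (E_int b (b + h))
  have s3 := E_integral_nonneg (show a ≤ a + h by linarith)
  have s4 := E_integral_le (show b ≤ b + h by linarith)
  have s5 := E_integral_le hab
  have hc : 0 < Real.log 4 + 4 := by
    have := Real.log_nonneg (show (1 : ℝ) ≤ 4 by norm_num)
    linarith
  have s6 : ∫ y in (a + h)..(b + h), E y ≤ (∫ y in a..b, E y) + (Real.log 4 + 4) * (1 / T) := by
    have : (Real.log 4 + 4) * (b + h - b) ≤ (Real.log 4 + 4) * (1 / T) :=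
      mul_le_mul_of_nonneg_left (by linarith) hc.le
    linarith
  have hT1 : 1 / T ≤ 1 := by
    rw [div_le_one hT0]
    exact hT
  calc (1 + 1 / T) * (∫ y in (a + h)..(b + h), E y) - ∫ y in a..b, E y
      ≤ (1 + 1 / T) * ((∫ y in a..b, E y) + (Real.log 4 + 4) * (1 / T)) - ∫ y in a..b, E y := by
        gcongr
    _ = (1 / T) * (∫ y in a..b, E y) + (1 + 1 / T) * ((Real.log 4 + 4) * (1 / T)) := by ring
    _ ≤ (1 / T) * ((Real.log 4 + 4) * (b - a)) + 2 * ((Real.log 4 + 4) * (1 / T)) := by
        gcongr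
        linarith
    _ = _ := by ring

/-- the pointwise bound -/
lemma DT_sq_le {T y : ℝ} (hT : 2 ≤ T) (hy : y ≤ Real.log T) :
    DT T y ^ 2 ≤ 2 * Real.log (T + 1) * (Real.exp (-y) *
      (Chebyshev.psi (Real.exp y * (1 + 1 / T)) - Chebyshev.psi (Real.exp y))) + 2 / T := by
  have hT0 : 0 < T := by linarith
  have hxT : Real.exp y ≤ T := by
    rw [← Real.exp_log hT0]
    exact Real.exp_le_exp.2 hy
  have hx0 := Real.exp_pos y
  have hz : Real.exp y * (1 + 1 / T) = Real.exp y + Real.exp y / T := by ring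
  have hz1 : Real.exp y / T ≤ 1 := by
    rw [div_le_one hT0]
    exact hxT
  have hz0 : 0 < Real.exp y / T := by positivity
  have d1 : Chebyshev.psi (Real.exp y * (1 + 1 / T)) - Chebyshev.psi (Real.exp y) ≤
      Real.log (T + 1) := psi_jump hx0.le (by rw [hz]; linarith) hxT
  have d0 : 0 ≤ Chebyshev.psi (Real.exp y * (1 + 1 / T)) - Chebyshev.psi (Real.exp y) := by
    have := Chebyshev.psi_mono (show Real.exp y ≤ Real.exp y * (1 + 1 / T) by
      rw [hz]; linarith)
    linarith
  set D := Chebyshev.psi (Real.exp y * (1 + 1 / T)) - Chebyshev.psi (Real.exp y) with hD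
  set z := Real.exp y / T with hzz
  have hsq : DT T y ^ 2 = Real.exp (-y) * (D - z) ^ 2 := by
    unfold DT
    rw [mul_pow, ← Real.exp_nat_mul]
    congr 2
    push_cast
    ring
  have hez : Real.exp (-y) * z ^ 2 ≤ 1 / T := by
    have h1 : Real.exp (-y) * z ^ 2 = (Real.exp (-y) * Real.exp y) * (z / T) := by
      rw [hzz]; ring
    rw [h1, ← Real.exp_add, neg_add_cancel, Real.exp_zero, one_mul]
    gcongr
  have he0 := Real.exp_pos (-y)
  rw [hsq]
  have h2 : (D - z) ^ 2 ≤ 2 * (Real.log (T + 1) * D) + 2 * z ^ 2 := by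
    have h3 : D * D ≤ Real.log (T + 1) * D := mul_le_mul_of_nonneg_right d1 d0
    nlinarith [sq_nonneg (D + z)]
  calc Real.exp (-y) * (D - z) ^ 2 ≤ Real.exp (-y) * (2 * (Real.log (T + 1) * D) + 2 * z ^ 2) :=
        mul_le_mul_of_nonneg_left h2 he0.le
    _ = 2 * Real.log (T + 1) * (Real.exp (-y) * D) + 2 * (Real.exp (-y) * z ^ 2) := by ring
    _ ≤ 2 * Real.log (T + 1) * (Real.exp (-y) * D) + 2 * (1 / T) := by gcongr
    _ = _ := by ring

/-- PV7: the variance just below `x = T` -/
theorem main : S_PV7 := by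
  have hc : 0 < Real.log 4 + 4 := by
    have := Real.log_nonneg (show (1 : ℝ) ≤ 4 by norm_num)
    linarith
  set c := Real.log 4 + 4 with hcdef
  refine ⟨8 * c + 2, by positivity, fun η hη hη2 => ?_⟩
  have hlog : ∀ᶠ T : ℝ in atTop, max 1 (2 / η) ≤ Real.log T :=
    Real.tendsto_log_atTop.eventually_ge_atTop _
  filter_upwards [hlog, eventually_ge_atTop (2 : ℝ)] with T hL hT
  have hT0 : 0 < T := by linarith
  set L := Real.log T with hLdef
  have hL1 : 1 ≤ L := (le_max_left _ _).trans hL
  have hL2 : 2 / η ≤ L := (le_max_right _ _).trans hL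
  have hL0 : 0 < L := by linarith
  have hL2' : 2 ≤ η * L := by
    rw [div_le_iff₀ hη] at hL2
    linarith
  have hab : (1 - η) * L ≤ L := by nlinarith
  obtain ⟨i1, i2⟩ := first_moment (T := T) (by linarith) hab
  have hlog2 : Real.log (T + 1) ≤ 2 * L := by
    have h1 : T + 1 ≤ T ^ 2 := by nlinarith
    calc Real.log (T + 1) ≤ Real.log (T ^ 2) := Real.log_le_log (by linarith) h1
      _ = 2 * L := by rw [Real.log_pow]; push_cast; rfl
  have hlog0 : 0 ≤ Real.log (T + 1) := Real.log_nonneg (by linarith)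
  have hmain : ∫ y in ((1 - η) * L)..L, DT T y ^ 2 ≤
      ∫ y in ((1 - η) * L)..L, (2 * Real.log (T + 1) * (Real.exp (-y) *
        (Chebyshev.psi (Real.exp y * (1 + 1 / T)) - Chebyshev.psi (Real.exp y))) + 2 / T) := by
    have hgi : IntervalIntegrable (fun y => 2 * Real.log (T + 1) * (Real.exp (-y) *
        (Chebyshev.psi (Real.exp y * (1 + 1 / T)) - Chebyshev.psi (Real.exp y))) + 2 / T)
        volume ((1 - η) * L) L := (i1.const_mul _).add intervalIntegrable_const
    rw [intervalIntegral.integral_of_le hab, intervalIntegral.integral_of_le hab]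
    refine integral_mono_of_nonneg (Eventually.of_forall fun y => sq_nonneg _)
      ((intervalIntegrable_iff_integrableOn_Ioc_of_le hab).1 hgi) ?_
    refine (ae_restrict_mem measurableSet_Ioc).mono fun y hy => ?_
    exact DT_sq_le hT hy.2
  rw [intervalIntegral.integral_add (i1.const_mul _) intervalIntegrable_const,
    intervalIntegral.integral_const_mul, intervalIntegral.integral_const, smul_eq_mul] at hmain
  have h5 : ∫ y in ((1 - η) * L)..L, DT T y ^ 2 ≤
      2 * (2 * L) * (c * (η * L + 2) / T) + η * L * (2 / T) := by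
    have h6 : L - (1 - η) * L = η * L := by ring
    rw [h6] at hmain i2
    have h7 : 0 ≤ c * (η * L + 2) / T := by positivity
    calc _ ≤ _ := hmain
      _ ≤ 2 * Real.log (T + 1) * (c * (η * L + 2) / T) + η * L * (2 / T) := by
          gcongr
      _ ≤ _ := by gcongr
  calc T / L ^ 2 * ∫ y in ((1 - η) * L)..L, DT T y ^ 2
      ≤ T / L ^ 2 * (2 * (2 * L) * (c * (η * L + 2) / T) + η * L * (2 / T)) := by
        gcongr
    _ = 4 * c * (η * L + 2) / L + 2 * η / L := by
        field_simp
        ring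
    _ ≤ 4 * c * (η * L + η * L) / L + 2 * η / 1 := by
        gcongr
    _ = (8 * c + 2) * η := by
        field_simp
        ring

end Pool.Agent.N415.PV7
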