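import Pool.Agent.N646.RO.Stm

/-!
# RQ/BB: moments of the number of rough integers just below `n`
-/

set_option autoImplicit false

namespace Pool.Agent.N415.RQBB

open Finset Filter Topology Pool.Agent.N646.RO

/-- counting -/
theorem card_le (P : ℤ → Prop) [DecidablePred P] (L s n : ℕ) (hs : s ≤ L + 1) (hn : L + s ≤ n) :
    ((range (L + s + 1)).filter (fun j : ℕ => P (n - j))).card ≤
      ((range (L + 1)).filter (fun v : ℕ => P ((n - (L + s) : ℕ) + v))).card +
        ((range (L + 1)).filter (fun v : ℕ => P ((n - (L + s) + (L + 1) : ℕ) + v))).card := by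
  classical
  set F1 := (range (L + 1)).filter (fun v : ℕ => P ((n - (L + s) : ℕ) + v)) with hF1
  set F2 := (range (L + 1)).filter (fun v : ℕ => P ((n - (L + s) + (L + 1) : ℕ) + v)) with hF2
  have hsub : (range (L + s + 1)).filter (fun j : ℕ => P (n - j)) ⊆
      F1.image (fun v => L + s - v) ∪ F2.image (fun v => s - 1 - v) := by
    intro j hj
    rw [mem_filter, mem_range] at hj
    rw [mem_union, mem_image, mem_image]
    by_cases h : s ≤ j
    · left
      refine ⟨L + s - j, ?_, by omega⟩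
      rw [hF1, mem_filter, mem_range]
      refine ⟨by omega, ?_⟩
      have h1 : (((n - (L + s) : ℕ) : ℤ) + ((L + s - j : ℕ) : ℤ)) = (n : ℤ) - j := by omega
      rw [h1]
      exact hj.2
    · right
      refine ⟨s - 1 - j, ?_, by omega⟩
      rw [hF2, mem_filter, mem_range]
      refine ⟨by omega, ?_⟩
      have h1 : (((n - (L + s) + (L + 1) : ℕ) : ℤ) + ((s - 1 - j : ℕ) : ℤ)) = (n : ℤ) - j := by
        omega
      rw [h1]
      exact hj.2
  calc _ ≤ (F1.image (fun v => L + s - v) ∪ F2.image (fun v => s - 1 - v)).card :=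
        card_le_card hsub
    _ ≤ (F1.image (fun v => L + s - v)).card + (F2.image (fun v => s - 1 - v)).card :=
        card_union_le _ _
    _ ≤ _ := add_le_add card_image_le card_image_le

theorem sum_comp_le {I J : Finset ℕ} {g : ℕ → ℕ} {f : ℕ → ℝ} (hf : ∀ m, 0 ≤ f m)
    (hg : Set.InjOn g I) (hJ : ∀ n ∈ I, g n ∈ J) : ∑ n ∈ I, f (g n) ≤ ∑ m ∈ J, f m := by
  classical
  rw [← sum_image (f := f) hg]
  exact sum_le_sum_of_subset_of_nonneg (image_subset_iff.2 hJ) fun m _ _ => hf m

theorem main (h : S_MB) : S_BB := by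
  classical
  intro δ s r hδ
  obtain ⟨C, hC, hCN⟩ := h δ r hδ
  refine ⟨2 ^ r * (2 * C), by positivity, ?_⟩
  have hlog : ∀ᶠ N : ℕ in atTop, Real.log N ≤ N / 360 := by
    have h1 : ∀ᶠ x : ℝ in atTop, ‖Real.log x‖ ≤ (1 / 360) * ‖x‖ :=
      Real.isLittleO_log_id_atTop.def (by norm_num)
    filter_upwards [tendsto_natCast_atTop_atTop.eventually h1] with N hN
    rw [Real.norm_eq_abs, Real.norm_eq_abs, abs_of_nonneg (Nat.cast_nonneg N : (0 : ℝ) ≤ N)] at hN
    have := le_abs_self (Real.log N)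
    linarith
  have hlog2 : ∀ᶠ N : ℕ in atTop, (s : ℝ) ≤ Real.log N :=
    (Real.tendsto_log_atTop.comp tendsto_natCast_atTop_atTop).eventually_ge_atTop _
  filter_upwards [hCN, hlog, hlog2, eventually_ge_atTop ((s + 1) * 360), eventually_ge_atTop 1]
    with N hN h1 h2 h3 h4
  set L := ⌊Real.log N⌋₊ with hL
  have hLN : L * 360 ≤ N := by
    have h5 : (L : ℝ) ≤ Real.log N := Nat.floor_le (Real.log_natCast_nonneg _)
    have h6 : (L : ℝ) * 360 ≤ N := by linarith
    exact_mod_cast h6
  have hsL : s ≤ L := Nat.le_floor h2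
  set f : ℕ → ℝ := fun n => (((range (L + 1)).filter
    (fun v : ℕ => Rgh δ N (n + v))).card : ℝ) ^ r with hf
  have hf0 : ∀ m, 0 ≤ f m := fun m => by positivity
  have key : ∀ n ∈ Icc (N / 18) (2 * N), (((range (L + s + 1)).filter
      (fun j : ℕ => Rgh δ N (n - j))).card : ℝ) ^ r ≤
      2 ^ r * (f (n - (L + s)) + f (n - (L + s) + (L + 1))) := by
    intro n hn
    rw [mem_Icc] at hn
    have h5 := card_le (fun z => Rgh δ N z) L s n (by omega) (by omega)
    have h6 : (((range (L + s + 1)).filter (fun j : ℕ => Rgh δ N (n - j))).card : ℝ) ≤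
        (((range (L + 1)).filter (fun v : ℕ => Rgh δ N ((n - (L + s) : ℕ) + v))).card : ℝ) +
        (((range (L + 1)).filter
          (fun v : ℕ => Rgh δ N ((n - (L + s) + (L + 1) : ℕ) + v))).card : ℝ) := by
      exact_mod_cast h5
    have h7 := pow_le_pow_left₀ (Nat.cast_nonneg _) h6 r
    have h8 := add_pow_le
      (a := (((range (L + 1)).filter (fun v : ℕ => Rgh δ N ((n - (L + s) : ℕ) + v))).card : ℝ))
      (b := (((range (L + 1)).filter
          (fun v : ℕ => Rgh δ N ((n - (L + s) + (L + 1) : ℕ) + v))).card : ℝ))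
      (Nat.cast_nonneg _) (Nat.cast_nonneg _) r
    refine (h7.trans h8).trans ?_
    refine mul_le_mul_of_nonneg_right ?_ (add_nonneg (hf0 _) (hf0 _))
    exact pow_le_pow_right₀ (by norm_num) (Nat.sub_le _ _)
  refine (sum_le_sum key).trans ?_
  rw [← mul_sum, sum_add_distrib]
  have e1 : ∑ n ∈ Icc (N / 18) (2 * N), f (n - (L + s)) ≤ ∑ m ∈ Icc (N / 20) (4 * N), f m := by
    refine sum_comp_le (g := fun n => n - (L + s)) hf0 ?_ ?_
    · intro a ha b hb hab
      rw [mem_coe, mem_Icc] at ha hb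
      have hab' : a - (L + s) = b - (L + s) := hab
      omega
    · intro n hn
      rw [mem_Icc] at hn ⊢
      constructor <;> show _ ≤ _ <;> omega
  have e2 : ∑ n ∈ Icc (N / 18) (2 * N), f (n - (L + s) + (L + 1)) ≤
      ∑ m ∈ Icc (N / 20) (4 * N), f m := by
    refine sum_comp_le (g := fun n => n - (L + s) + (L + 1)) hf0 ?_ ?_
    · intro a ha b hb hab
      rw [mem_coe, mem_Icc] at ha hb
      have hab' : a - (L + s) + (L + 1) = b - (L + s) + (L + 1) := hab
      omega
    · intro n hn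
      rw [mem_Icc] at hn ⊢
      constructor <;> show _ ≤ _ <;> omega
  have e3 : ∑ m ∈ Icc (N / 20) (4 * N), f m ≤ C * N := hN
  have e4 : (0 : ℝ) ≤ 2 ^ r := by positivity
  calc (2 : ℝ) ^ r * (∑ n ∈ Icc (N / 18) (2 * N), f (n - (L + s)) +
        ∑ n ∈ Icc (N / 18) (2 * N), f (n - (L + s) + (L + 1)))
      ≤ 2 ^ r * (C * N + C * N) := mul_le_mul_of_nonneg_left (by linarith) e4
    _ = 2 ^ r * (2 * C) * N := by ring

end Pool.Agent.N415.RQBB
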